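import Mathlib

/-!
# Definitions: free abelian topological groups, Lašnev spaces, csf-countability
-/

namespace Q183.Csf

universe u

/-- A Lašnev space: a Hausdorff space that is the image of a metrizable space under a closed
continuous surjection. -/
def IsLasnev (X : Type u) [TopologicalSpace X] : Prop :=
  T2Space X ∧ ∃ (M : Type u) (_ : MetricSpace M) (p : M → X),
    Continuous p ∧ IsClosedMap p ∧ Function.Surjective p

/-- `A`, with the map `i : X → A`, is the free abelian topological group over `X` in the sense
of Markov: `i` is a topological embedding, every element of `A` has a unique expression as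
`∑ k_x • i x` (a finite sum), and every continuous map from `X` to a Hausdorff abelian
topological group extends to a continuous homomorphism. -/
structure IsMarkovFree (X : Type u) [TopologicalSpace X] (A : Type u) [AddCommGroup A]
    [TopologicalSpace A] (i : X → A) : Prop where
  /-- `A` is a topological group. -/
  group : IsTopologicalAddGroup A
  /-- `A` is Hausdorff. -/
  t2 : T2Space A
  /-- `X` is a subspace of `A`. -/
  embedding : Topology.IsEmbedding i
  /-- `A` is algebraically the free abelian group over `X`. -/
  free : Function.Bijective (fun f : X →₀ ℤ => f.sum fun x k => k • i x)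
  /-- The extension property. -/
  extend : ∀ (H : Type u) [AddCommGroup H] [TopologicalSpace H] [IsTopologicalAddGroup H]
    [T2Space H] (φ : X → H), Continuous φ →
      ∃ ψ : A →+ H, Continuous ψ ∧ ∀ x, ψ (i x) = φ x

/-- The set `A_n(X)` of the elements of length at most `n`: the elements whose reduced form
`∑ k_x • i x` satisfies `∑ |k_x| ≤ n`. -/
def level {X : Type u} {A : Type u} [AddCommGroup A] (i : X → A) (n : ℕ) : Set A :=
  {g | ∃ f : X →₀ ℤ, (f.sum fun _ k => |k|) ≤ (n : ℤ) ∧ (f.sum fun x k => k • i x) = g}

/-- A cs-network at the point `y`. -/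
def IsCsNetworkAt {Y : Type u} [TopologicalSpace Y] (y : Y) (𝒬 : Set (Set Y)) : Prop :=
  (∀ P ∈ 𝒬, y ∈ P) ∧ ∀ s : ℕ → Y, Filter.Tendsto s Filter.atTop (nhds y) →
    ∀ U : Set Y, IsOpen U → y ∈ U → ∃ P ∈ 𝒬, P ⊆ U ∧ ∀ᶠ j in Filter.atTop, s j ∈ P

/-- `Y` is csf-countable: every point has a countable cs-network at it. -/
def CsfCountable (Y : Type u) [TopologicalSpace Y] : Prop :=
  ∀ y : Y, ∃ 𝒬 : Set (Set Y), 𝒬.Countable ∧ IsCsNetworkAt y 𝒬

end Q183.Csf
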