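import Pool.Agent.Q183.Csf.Proof

namespace Q183.Csf

open Filter Topology

universe u

variable {X : Type u} [TopologicalSpace X] {A : Type u} [AddCommGroup A] [TopologicalSpace A]
  {i : X → A}

/-! ### Letters -/

omit [TopologicalSpace X] in
theorem exists_fin (N : ℕ) (m : Multiset X) (hm : m.card = N) :
    ∃ x : Fin N → X, (Finset.univ.val.map x) = m := by
  obtain ⟨l, rfl⟩ := Quot.exists_rep m
  have hl : l.length = N := hm
  subst hl
  exact ⟨l.get, by rw [Fin.univ_val_map, List.ofFn_get]; rfl⟩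

theorem toNat_sub (k : ℤ) : ((k.toNat : ℤ) - ((-k).toNat : ℤ)) = k := by omega

theorem toNat_add (k : ℤ) : ((k.toNat : ℤ) + ((-k).toNat : ℤ)) = |k| := by
  rcases le_total 0 k with h | h
  · rw [abs_of_nonneg h]; omega
  · rw [abs_of_nonpos h]; omega

omit [TopologicalSpace X] [TopologicalSpace A] in
/-- A word with coefficient sum zero and length at most `N` is a sum of `N` differences. -/
theorem letters (f : X →₀ ℤ) (N : ℕ) (b : X) (h0 : (f.sum fun _ k => k) = 0)
    (hN : (f.sum fun _ k => |k|) ≤ (N : ℤ)) :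
    ∃ x y : Fin N → X, (∀ k, x k ∈ f.support ∨ x k = b) ∧ (∀ k, y k ∈ f.support ∨ y k = b) ∧
      (f.sum fun x k => k • i x) = ∑ k, (i (x k) - i (y k)) := by
  obtain ⟨P, hP⟩ : ∃ P : Multiset X, P = ∑ x ∈ f.support, (f x).toNat • {x} := ⟨_, rfl⟩
  obtain ⟨Q, hQ⟩ : ∃ Q : Multiset X, Q = ∑ x ∈ f.support, (-f x).toNat • {x} := ⟨_, rfl⟩
  have hPc : P.card = ∑ x ∈ f.support, (f x).toNat := by
    rw [hP, Multiset.card_sum]
    simp
  have hQc : Q.card = ∑ x ∈ f.support, (-f x).toNat := by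
    rw [hQ, Multiset.card_sum]
    simp
  have hPs : (P.map i).sum = ∑ x ∈ f.support, (f x).toNat • i x := by
    have h1 : P.map i = ∑ x ∈ f.support, (f x).toNat • {i x} := by
      rw [hP]
      have := map_sum (Multiset.mapAddMonoidHom i) (fun x => (f x).toNat • ({x} : Multiset X))
        f.support
      rw [Multiset.coe_mapAddMonoidHom] at this
      rw [this]
      refine Finset.sum_congr rfl fun x _ => ?_
      rw [Multiset.map_nsmul, Multiset.map_singleton]
    rw [h1]
    have := map_sum (Multiset.sumAddMonoidHom : Multiset A →+ A)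
      (fun x => (f x).toNat • ({i x} : Multiset A)) f.support
    rw [Multiset.coe_sumAddMonoidHom] at this
    rw [this]
    refine Finset.sum_congr rfl fun x _ => ?_
    rw [Multiset.sum_nsmul, Multiset.sum_singleton]
  have hQs : (Q.map i).sum = ∑ x ∈ f.support, (-f x).toNat • i x := by
    have h1 : Q.map i = ∑ x ∈ f.support, (-f x).toNat • {i x} := by
      rw [hQ]
      have := map_sum (Multiset.mapAddMonoidHom i) (fun x => (-f x).toNat • ({x} : Multiset X))
        f.support
      rw [Multiset.coe_mapAddMonoidHom] at this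
      rw [this]
      refine Finset.sum_congr rfl fun x _ => ?_
      rw [Multiset.map_nsmul, Multiset.map_singleton]
    rw [h1]
    have := map_sum (Multiset.sumAddMonoidHom : Multiset A →+ A)
      (fun x => (-f x).toNat • ({i x} : Multiset A)) f.support
    rw [Multiset.coe_sumAddMonoidHom] at this
    rw [this]
    refine Finset.sum_congr rfl fun x _ => ?_
    rw [Multiset.sum_nsmul, Multiset.sum_singleton]
  have hmemP : ∀ x ∈ P, x ∈ f.support := by
    intro x hx
    rw [hP, Multiset.mem_sum] at hx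
    obtain ⟨z, hz, hxz⟩ := hx
    have := Multiset.mem_of_mem_nsmul hxz
    rw [Multiset.mem_singleton] at this
    rwa [this]
  have hmemQ : ∀ x ∈ Q, x ∈ f.support := by
    intro x hx
    rw [hQ, Multiset.mem_sum] at hx
    obtain ⟨z, hz, hxz⟩ := hx
    have := Multiset.mem_of_mem_nsmul hxz
    rw [Multiset.mem_singleton] at this
    rwa [this]
  have hcard : P.card = Q.card := by
    have h1 : ((P.card : ℤ) - (Q.card : ℤ)) = 0 := by
      rw [hPc, hQc, ← h0, Finsupp.sum]
      push_cast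
      rw [← Finset.sum_sub_distrib]
      exact Finset.sum_congr rfl fun x _ => toNat_sub _
    omega
  have hle : P.card ≤ N := by
    have h1 : ((P.card : ℤ) + (Q.card : ℤ)) ≤ N := by
      refine le_trans (le_of_eq ?_) hN
      rw [hPc, hQc, Finsupp.sum]
      push_cast
      rw [← Finset.sum_add_distrib]
      exact Finset.sum_congr rfl fun x _ => toNat_add _
    omega
  obtain ⟨x, hx⟩ := exists_fin N (P + Multiset.replicate (N - P.card) b) (by
    rw [Multiset.card_add, Multiset.card_replicate]; omega)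
  obtain ⟨y, hy⟩ := exists_fin N (Q + Multiset.replicate (N - P.card) b) (by
    rw [Multiset.card_add, Multiset.card_replicate]; omega)
  refine ⟨x, y, fun k => ?_, fun k => ?_, ?_⟩
  · have h1 : x k ∈ P + Multiset.replicate (N - P.card) b := by
      rw [← hx]
      exact Multiset.mem_map_of_mem x (Finset.mem_univ_val k)
    rcases Multiset.mem_add.1 h1 with h | h
    · exact Or.inl (hmemP _ h)
    · exact Or.inr (Multiset.eq_of_mem_replicate h)
  · have h1 : y k ∈ Q + Multiset.replicate (N - P.card) b := by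
      rw [← hy]
      exact Multiset.mem_map_of_mem y (Finset.mem_univ_val k)
    rcases Multiset.mem_add.1 h1 with h | h
    · exact Or.inl (hmemQ _ h)
    · exact Or.inr (Multiset.eq_of_mem_replicate h)
  · have hsx : ∑ k, i (x k) = (P.map i).sum + (N - P.card) • i b := by
      have h1 : ∑ k, i (x k) = ((Finset.univ.val.map x).map i).sum := by
        rw [Multiset.map_map]; rfl
      rw [h1, hx, Multiset.map_add, Multiset.sum_add, Multiset.map_replicate,
        Multiset.sum_replicate]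
    have hsy : ∑ k, i (y k) = (Q.map i).sum + (N - P.card) • i b := by
      have h1 : ∑ k, i (y k) = ((Finset.univ.val.map y).map i).sum := by
        rw [Multiset.map_map]; rfl
      rw [h1, hy, Multiset.map_add, Multiset.sum_add, Multiset.map_replicate,
        Multiset.sum_replicate]
    rw [Finset.sum_sub_distrib, hsx, hsy, add_sub_add_right_eq_sub, hPs, hQs, Finsupp.sum,
      ← Finset.sum_sub_distrib]
    refine Finset.sum_congr rfl fun x _ => ?_
    conv_lhs => rw [← toNat_sub (f x)]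
    rw [sub_smul, natCast_zsmul, natCast_zsmul]

/-! ### Equal words -/

theorem exists_perm (hA : IsMarkovFree X A i) {N : ℕ} (p q : Fin N → X)
    (h : ∑ k, (i (p k) - i (q k)) = 0) : ∃ π : Equiv.Perm (Fin N), ∀ k, q (π k) = p k := by
  classical
  have hlin : ∀ F G : X →₀ ℤ, ((F - G).sum fun x k => k • i x)
      = (F.sum fun x k => k • i x) - (G.sum fun x k => k • i x) := by
    intro F G
    exact Finsupp.sum_sub_index fun x a b => sub_smul _ _ _
  have hadd : ∀ F G : X →₀ ℤ, ((F + G).sum fun x k => k • i x)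
      = (F.sum fun x k => k • i x) + (G.sum fun x k => k • i x) := by
    intro F G
    exact Finsupp.sum_add_index' (fun x => zero_zsmul _) fun x a b => add_zsmul _ _ _
  have hsum : ∀ r : Fin N → X, ((∑ k, Finsupp.single (r k) (1 : ℤ)).sum fun x k => k • i x)
      = ∑ k, i (r k) := by
    intro r
    rw [← Finsupp.sum_finsetSum_index (fun x => zero_zsmul _) fun x a b => add_zsmul _ _ _]
    refine Finset.sum_congr rfl fun k _ => ?_
    rw [Finsupp.sum_single_index (zero_zsmul _), one_zsmul]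
  have hF : (∑ k, Finsupp.single (p k) (1 : ℤ)) = ∑ k, Finsupp.single (q k) (1 : ℤ) := by
    apply hA.free.1
    simp only
    rw [hsum, hsum, ← sub_eq_zero, ← Finset.sum_sub_distrib]
    exact h
  have hc : ∀ x : X, Fintype.card {k // p k = x} = Fintype.card {k // q k = x} := by
    intro x
    have h1 := DFunLike.congr_fun hF x
    rw [Finsupp.finsetSum_apply, Finsupp.finsetSum_apply] at h1
    simp only [Finsupp.single_apply, Finset.sum_boole] at h1
    rw [Fintype.card_subtype, Fintype.card_subtype]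
    exact_mod_cast h1
  have e : (Σ x, {k // p k = x}) ≃ (Σ x, {k // q k = x}) :=
    Equiv.sigmaCongrRight fun x => Fintype.equivOfCardEq (hc x)
  refine ⟨(Equiv.sigmaFiberEquiv p).symm.trans
    ((Equiv.sigmaCongrRight fun x => Fintype.equivOfCardEq (hc x)).trans
      (Equiv.sigmaFiberEquiv q)), fun k => ?_⟩
  exact (Fintype.equivOfCardEq (hc (p k)) ⟨k, rfl⟩).2

/-! ### Simultaneous subsequences -/

theorem simul {ι : Type*} [Finite ι] (z : ι → ℕ → X)
    (hz : ∀ (k : ι) (φ : ℕ → ℕ), ∃ (a : X) (ψ : ℕ → ℕ), StrictMono ψ ∧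
      Tendsto (z k ∘ φ ∘ ψ) atTop (𝓝 a)) :
    ∃ φ : ℕ → ℕ, StrictMono φ ∧ ∀ k, ∃ a, Tendsto (z k ∘ φ) atTop (𝓝 a) := by
  classical
  have := Fintype.ofFinite ι
  have key : ∀ s : Finset ι, ∃ φ : ℕ → ℕ, StrictMono φ ∧
      ∀ k ∈ s, ∃ a, Tendsto (z k ∘ φ) atTop (𝓝 a) := by
    intro s
    induction s using Finset.induction_on with
    | empty => exact ⟨id, strictMono_id, by simp⟩
    | insert k s _ ih =>
      obtain ⟨φ, hφ, h⟩ := ih
      obtain ⟨a, ψ, hψ, ha⟩ := hz k φ
      refine ⟨φ ∘ ψ, hφ.comp hψ, fun l hl => ?_⟩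
      rcases Finset.mem_insert.1 hl with rfl | hl
      · exact ⟨a, ha⟩
      · obtain ⟨c, hc⟩ := h l hl
        exact ⟨c, hc.comp hψ.tendsto_atTop⟩
  obtain ⟨φ, hφ, h⟩ := key Finset.univ
  exact ⟨φ, hφ, fun k => h k (Finset.mem_univ k)⟩

/-! ### Matching -/

theorem matching (hA : IsMarkovFree X A i) {N : ℕ} (x y : ℕ → Fin N → X)
    (hx : ∀ (k : Fin N) (φ : ℕ → ℕ), ∃ (a : X) (ψ : ℕ → ℕ), StrictMono ψ ∧
      Tendsto ((fun j => x j k) ∘ φ ∘ ψ) atTop (𝓝 a))
    (hy : ∀ (k : Fin N) (φ : ℕ → ℕ), ∃ (a : X) (ψ : ℕ → ℕ), StrictMono ψ ∧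
      Tendsto ((fun j => y j k) ∘ φ ∘ ψ) atTop (𝓝 a))
    (h0 : Tendsto (fun j => ∑ k, (i (x j k) - i (y j k))) atTop (𝓝 0))
    (Q : ℕ → Set A)
    (hQ : ∀ u v : ℕ → X, Tendsto (fun m => i (u m) - i (v m)) atTop (𝓝 0) →
      ∃ n, ∀ᶠ m in atTop, i (u m) - i (v m) ∈ Q n) :
    ∃ m, ∀ᶠ j in atTop, ∃ π : Equiv.Perm (Fin N), ∀ k,
      i (x j k) - i (y j (π k)) ∈ ⋃ n ∈ Set.Iic m, Q n := by
  have := hA.group
  have := hA.t2
  by_contra hcon
  push Not at hcon
  have hfr : ∀ m, ∃ᶠ j in atTop, ∀ π : Equiv.Perm (Fin N), ∃ k,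
      i (x j k) - i (y j (π k)) ∉ ⋃ n ∈ Set.Iic m, Q n := by
    intro m
    have := hcon m
    simpa [Filter.Frequently] using this
  obtain ⟨J, hJ, hJbad⟩ := extraction_forall_of_frequently hfr
  -- a common subsequence
  obtain ⟨φ, hφ, hlim⟩ := simul (ι := Fin N ⊕ Fin N)
    (fun k m => Sum.elim (fun k => x (J m) k) (fun k => y (J m) k) k) (by
      rintro (k | k) φ
      · obtain ⟨a, ψ, h1, h2⟩ := hx k (J ∘ φ)
        exact ⟨a, ψ, h1, h2⟩
      · obtain ⟨a, ψ, h1, h2⟩ := hy k (J ∘ φ)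
        exact ⟨a, ψ, h1, h2⟩)
  choose p hp using fun k => hlim (Sum.inl k)
  choose q hq using fun k => hlim (Sum.inr k)
  have hip : ∀ k, Tendsto (fun m => i (x (J (φ m)) k)) atTop (𝓝 (i (p k))) := fun k =>
    (hA.embedding.continuous.tendsto _).comp (hp k)
  have hiq : ∀ k, Tendsto (fun m => i (y (J (φ m)) k)) atTop (𝓝 (i (q k))) := fun k =>
    (hA.embedding.continuous.tendsto _).comp (hq k)
  have hsum : ∑ k, (i (p k) - i (q k)) = 0 := by
    refine tendsto_nhds_unique (f := fun m => ∑ k, (i (x (J (φ m)) k) - i (y (J (φ m)) k)))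
      (l := atTop) ?_ (h0.comp (hJ.comp hφ).tendsto_atTop)
    exact tendsto_finsetSum _ fun k _ => (hip k).sub (hiq k)
  obtain ⟨π, hπ⟩ := exists_perm hA p q hsum
  have hk : ∀ k, ∃ n, ∀ᶠ m in atTop, i (x (J (φ m)) k) - i (y (J (φ m)) (π k)) ∈ Q n := by
    intro k
    apply hQ
    have h1 := (hip k).sub (hiq (π k))
    rw [hπ, sub_self] at h1
    exact h1
  choose n hn using hk
  have hev : ∀ᶠ m in atTop, ∀ k, i (x (J (φ m)) k) - i (y (J (φ m)) (π k)) ∈ Q (n k) :=
    Filter.eventually_all.2 hn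
  have hev2 : ∀ᶠ m in atTop, (Finset.univ.sup n) ≤ φ m :=
    hφ.tendsto_atTop.eventually_ge_atTop _
  obtain ⟨m, hm1, hm2⟩ := (hev.and hev2).exists
  obtain ⟨k, hk⟩ := hJbad (φ m) π
  apply hk
  exact Set.mem_biUnion (show n k ∈ Set.Iic (φ m) from
    (Finset.le_sup (f := n) (Finset.mem_univ k)).trans hm2) (hm1 k)

/-! ### The theorem -/

/-- Every sequence of points in the supports, or equal to `b`, has a convergent subsequence. -/
theorem rsc [T2Space X] [NormalSpace X] [SequentialSpace X] (hA : IsMarkovFree X A i)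
    (f : ℕ → X →₀ ℤ) (hf : Tendsto (fun j => (f j).sum fun x k => k • i x) atTop (𝓝 0)) (b : X)
    (s : ℕ → X) (hs : ∀ m, (∃ j, s m ∈ (f j).support) ∨ s m = b) :
    ∃ (a : X) (φ : ℕ → ℕ), StrictMono φ ∧ Tendsto (s ∘ φ) atTop (𝓝 a) := by
  by_cases h : ∃ᶠ m in atTop, s m = b
  · obtain ⟨φ, hφ, hφb⟩ := extraction_of_frequently_atTop h
    refine ⟨b, φ, hφ, ?_⟩
    have : s ∘ φ = fun _ => b := funext hφb
    rw [this]
    exact tendsto_const_nhds
  · rw [not_frequently, eventually_atTop] at h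
    obtain ⟨m0, hm0⟩ := h
    obtain ⟨a, φ, hφ, ha⟩ := support_lemma hA f hf (fun m => s (m + m0)) (fun m => by
      rcases hs (m + m0) with h | h
      · exact h
      · exact (hm0 _ (Nat.le_add_left _ _) h).elim)
    refine ⟨a, fun m => φ m + m0, fun p q hpq => by
      have := hφ hpq
      simp only
      omega, ha⟩

/-- From some index on the coefficient sums vanish. -/
theorem sum_zero (hA : IsMarkovFree X A i) (f : ℕ → X →₀ ℤ)
    (hf : Tendsto (fun j => (f j).sum fun x k => k • i x) atTop (𝓝 0)) :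
    ∀ᶠ j in atTop, ((f j).sum fun _ k => k) = 0 := by
  obtain ⟨ψ, hψ, hψi⟩ := hA.extend (ULift.{u} ℝ) (fun _ => ULift.up 1) continuous_const
  have h1 : ∀ j, (ψ ((f j).sum fun x k => k • i x)).down
      = (((f j).sum fun _ k => k : ℤ) : ℝ) := by
    intro j
    rw [map_finsuppSum]
    have h2 : ((f j).sum fun x k => ψ (k • i x)) = (f j).sum fun _ k => ULift.up.{u} (k : ℝ) := by
      refine Finsupp.sum_congr fun x _ => ?_
      rw [map_zsmul, hψi]
      apply ULift.ext
      simp
    rw [h2]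
    have := map_finsuppSum (AddEquiv.ulift (α := ℝ)) (f j) (fun _ k => ULift.up.{u} (k : ℝ))
    refine this.trans ?_
    rw [Finsupp.sum, Finsupp.sum, Int.cast_sum]
    rfl
  have h2 : Tendsto (fun j => (((f j).sum fun _ k => k : ℤ) : ℝ)) atTop (𝓝 0) := by
    have h3 := (hψ.tendsto 0).comp hf
    rw [map_zero] at h3
    have h4 := (continuous_uliftDown.tendsto _).comp h3
    refine h4.congr fun j => ?_
    exact h1 j
  have h3 := h2.eventually (Metric.ball_mem_nhds (0 : ℝ) one_pos)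
  filter_upwards [h3] with j hj
  rw [dist_zero_right, Real.norm_eq_abs, ← Int.cast_abs] at hj
  have h5 : |((f j).sum fun _ k => k : ℤ)| < 1 := by exact_mod_cast hj
  exact Int.abs_lt_one_iff.1 h5

omit [TopologicalSpace X] [TopologicalSpace A] in
/-- The length-two elements. -/
theorem diff_mem_level (x y : X) {m : ℕ} (hm : 2 ≤ m) : i x - i y ∈ level i m := by
  classical
  refine ⟨Finsupp.single x 1 - Finsupp.single y 1, ?_, ?_⟩
  · by_cases hxy : x = y
    · subst hxy
      simp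
    · have h1 : ((Finsupp.single x (1 : ℤ) - Finsupp.single y 1).sum fun _ k => |k|) ≤ 2 := by
        rw [Finsupp.sum]
        have hsub : (Finsupp.single x (1 : ℤ) - Finsupp.single y 1).support ⊆ {x, y} := by
          refine (Finsupp.support_sub).trans ?_
          refine Finset.union_subset ?_ ?_
          · exact Finsupp.support_single_subset.trans (by simp)
          · exact Finsupp.support_single_subset.trans (by simp)
        refine (Finset.sum_le_sum_of_subset_of_nonneg hsub fun _ _ _ => abs_nonneg _).trans ?_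
        rw [Finset.sum_pair hxy]
        simp [hxy, Ne.symm hxy]
      exact h1.trans (by exact_mod_cast hm)
  · rw [Finsupp.sum_sub_index fun x a b => sub_smul _ _ _,
      Finsupp.sum_single_index (zero_zsmul _), Finsupp.sum_single_index (zero_zsmul _), one_zsmul,
      one_zsmul]

omit [TopologicalSpace X] [TopologicalSpace A] in
theorem level_zero_mem (m : ℕ) : (0 : A) ∈ level i m :=
  ⟨0, by simp, by simp⟩

omit [TopologicalSpace X] [TopologicalSpace A] in
theorem level_sub {n : ℕ} {a g : A} (ha : a ∈ level i n) (hg : g ∈ level i n) :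
    ∃ f : X →₀ ℤ, (f.sum fun _ k => |k|) ≤ ((2 * n : ℕ) : ℤ) ∧
      (f.sum fun x k => k • i x) = a - g := by
  classical
  obtain ⟨F, hF, rfl⟩ := ha
  obtain ⟨G, hG, rfl⟩ := hg
  refine ⟨F - G, ?_, Finsupp.sum_sub_index fun x a b => sub_smul _ _ _⟩
  have h1 : ((F - G).sum fun _ k => |k|) ≤ (F.sum fun _ k => |k|) + (G.sum fun _ k => |k|) := by
    have e1 : ((F - G).sum fun _ k => |k|) = ∑ x ∈ F.support ∪ G.support, |(F - G) x| := by
      refine Finsupp.sum_of_support_subset _ Finsupp.support_sub _ (by simp)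
    have e2 : (F.sum fun _ k => |k|) = ∑ x ∈ F.support ∪ G.support, |F x| :=
      Finsupp.sum_of_support_subset _ Finset.subset_union_left _ (by simp)
    have e3 : (G.sum fun _ k => |k|) = ∑ x ∈ F.support ∪ G.support, |G x| :=
      Finsupp.sum_of_support_subset _ Finset.subset_union_right _ (by simp)
    rw [e1, e2, e3, ← Finset.sum_add_distrib]
    refine Finset.sum_le_sum fun x _ => ?_
    rw [Finsupp.sub_apply]
    exact abs_sub _ _
  push_cast
  linarith

theorem exists_nhds_sum [IsTopologicalAddGroup A] (N : ℕ) (V : Set A) (hV : V ∈ 𝓝 (0 : A)) :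
    ∃ W : Set A, IsOpen W ∧ (0 : A) ∈ W ∧ ∀ q : Fin N → A, (∀ k, q k ∈ W) → ∑ k, q k ∈ V := by
  have hc : Continuous fun q : Fin N → A => ∑ k, q k :=
    continuous_finsetSum _ fun k _ => continuous_apply k
  have h1 : (fun q : Fin N → A => ∑ k, q k) ⁻¹' V ∈ 𝓝 (0 : Fin N → A) := by
    apply hc.continuousAt
    simpa using hV
  rw [nhds_pi, Filter.mem_pi] at h1
  obtain ⟨I, _, t, ht, hsub⟩ := h1
  refine ⟨interior (⋂ k, t k), isOpen_interior, ?_, fun q hq => ?_⟩
  · rw [mem_interior_iff_mem_nhds]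
    exact Filter.iInter_mem.2 fun k => ht k
  · exact hsub fun k _ => Set.mem_iInter.1 (interior_subset (hq k)) k

/-- **Main theorem** for sequential normal Hausdorff spaces. -/
theorem main [T2Space X] [NormalSpace X] [SequentialSpace X] (hA : IsMarkovFree X A i)
    (m : ℕ) (hm : 2 ≤ m) (h : CsfCountable (level i m)) (n : ℕ) :
    CsfCountable (level i n) := by
  classical
  have := hA.group
  rcases isEmpty_or_nonempty X with hX | ⟨⟨b⟩⟩
  · -- the trivial case
    intro y
    have hsub : ∀ z : level i n, z = y := by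
      have h0 : ∀ z : level i n, (z : A) = 0 := by
        rintro ⟨_, F, _, rfl⟩
        have h1 : (F.sum fun x k => k • i x) = 0 := by
          rw [Subsingleton.elim F 0]
          simp
        exact h1
      intro z
      exact Subtype.ext ((h0 z).trans (h0 y).symm)
    refine ⟨{Set.univ}, Set.countable_singleton _, ?_, ?_⟩
    · rintro P rfl; trivial
    · intro s _ U _ hyU
      refine ⟨Set.univ, rfl, fun z _ => ?_, by simp⟩
      rw [hsub z]; exact hyU
  -- the family at zero
  obtain ⟨𝒬, h𝒬c, h𝒬⟩ := h ⟨0, level_zero_mem m⟩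
  obtain ⟨𝒟, h𝒟⟩ : ∃ 𝒟 : Set (Set A), 𝒟 = (fun P : Set (level i m) => Subtype.val '' P) '' 𝒬 :=
    ⟨_, rfl⟩
  have h𝒟c : 𝒟.Countable := by rw [h𝒟]; exact h𝒬c.image _
  have h𝒟net : ∀ u v : ℕ → X, Tendsto (fun j => i (u j) - i (v j)) atTop (𝓝 0) →
      ∀ U : Set A, IsOpen U → (0 : A) ∈ U → ∃ D ∈ 𝒟, D ⊆ U ∧
        ∀ᶠ j in atTop, i (u j) - i (v j) ∈ D := by
    intro u v huv U hU h0U
    obtain ⟨P, hP, hPU, hPe⟩ := h𝒬.2 (fun j => ⟨i (u j) - i (v j), diff_mem_level _ _ hm⟩)
      (by rw [tendsto_subtype_rng]; exact huv) (Subtype.val ⁻¹' U)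
      (hU.preimage continuous_subtype_val) h0U
    refine ⟨Subtype.val '' P, by rw [h𝒟]; exact ⟨P, hP, rfl⟩, ?_, ?_⟩
    · rintro _ ⟨z, hz, rfl⟩
      exact hPU hz
    · filter_upwards [hPe] with j hj
      exact ⟨_, hj, rfl⟩
  intro g
  -- the network at `g`
  obtain ⟨SN, hSN⟩ : ∃ SN : Set (Set A) → Set (level i n), SN = fun F =>
      {a : level i n | ∃ q : Fin (2 * n) → A, (∀ k, q k ∈ Set.sUnion F ∪ {0}) ∧ (a : A) - g = ∑ k, q k} := ⟨_, rfl⟩
  refine ⟨SN '' {F | F.Finite ∧ F ⊆ 𝒟}, (Set.countable_ofPred_finite_subset h𝒟c).image _, ?_, ?_⟩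
  · rintro _ ⟨F, _, rfl⟩
    rw [hSN]
    exact ⟨fun _ => 0, fun _ => Or.inr rfl, by simp⟩
  intro s hs U hU hgU
  obtain ⟨W, hW, rfl⟩ := isOpen_induced_iff.1 hU
  have hsA : Tendsto (fun j => (s j : A)) atTop (𝓝 (g : A)) := tendsto_subtype_rng.1 hs
  have hV0 : (fun a => (g : A) + a) ⁻¹' W ∈ 𝓝 (0 : A) := by
    have hc : Continuous fun a : A => (g : A) + a := continuous_const.add continuous_id
    apply hc.continuousAt
    have h1 : (fun a : A => (g : A) + a) 0 = g := add_zero _
    rw [h1]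
    exact hW.mem_nhds hgU
  obtain ⟨V, hVo, h0V, hVsum⟩ := exists_nhds_sum (2 * n) _ hV0
  -- reduced forms of the differences
  choose f hfN hfs using fun j => level_sub (s j).2 g.2
  have hf0 : Tendsto (fun j => (f j).sum fun x k => k • i x) atTop (𝓝 0) := by
    have h1 : Tendsto (fun j => (s j : A) - g) atTop (𝓝 0) := by
      have := hsA.sub_const (g : A)
      rwa [sub_self] at this
    exact h1.congr fun j => (hfs j).symm
  have hzero := sum_zero hA f hf0
  -- the letters
  have hlet : ∀ j, ∃ x y : Fin (2 * n) → X,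
      (∀ k, (∃ j', x k ∈ (f j').support) ∨ x k = b) ∧
      (∀ k, (∃ j', y k ∈ (f j').support) ∨ y k = b) ∧
      (((f j).sum fun _ k => k) = 0 →
        ((f j).sum fun x k => k • i x) = ∑ k, (i (x k) - i (y k))) := by
    intro j
    by_cases hj : ((f j).sum fun _ k => k) = 0
    · obtain ⟨x, y, hx, hy, hxy⟩ := letters (i := i) (f j) (2 * n) b hj (hfN j)
      refine ⟨x, y, fun k => ?_, fun k => ?_, fun _ => hxy⟩
      · rcases hx k with h | h
        · exact Or.inl ⟨j, h⟩
        · exact Or.inr h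
      · rcases hy k with h | h
        · exact Or.inl ⟨j, h⟩
        · exact Or.inr h
    · exact ⟨fun _ => b, fun _ => b, fun _ => Or.inr rfl, fun _ => Or.inr rfl,
        fun h => (hj h).elim⟩
  choose x y hx hy hxy using hlet
  have h0' : Tendsto (fun j => ∑ k, (i (x j k) - i (y j k))) atTop (𝓝 0) := by
    refine hf0.congr' ?_
    filter_upwards [hzero] with j hj
    exact hxy j hj
  -- an enumeration of the small members
  have hne : {D | D ∈ 𝒟 ∧ D ⊆ V}.Nonempty := by
    obtain ⟨D, hD, hDV, _⟩ := h𝒟net (fun _ => b) (fun _ => b)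
      (by simp only [sub_self]; exact tendsto_const_nhds) V hVo h0V
    exact ⟨D, hD, hDV⟩
  obtain ⟨Q, hQ⟩ := (h𝒟c.mono (Set.sep_subset 𝒟 fun D => D ⊆ V)).exists_eq_range hne
  have hQmem : ∀ l, Q l ∈ 𝒟 ∧ Q l ⊆ V := by
    intro l
    have : Q l ∈ {D | D ∈ 𝒟 ∧ D ⊆ V} := by rw [hQ]; exact ⟨l, rfl⟩
    exact this
  obtain ⟨l, hl⟩ := matching hA x y
    (fun k φ => rsc hA f hf0 b _ fun j => hx _ k) (fun k φ => rsc hA f hf0 b _ fun j => hy _ k)
    h0' Q (by
      intro u v huv
      obtain ⟨D, hD, hDV, hDe⟩ := h𝒟net u v huv V hVo h0V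
      have : D ∈ Set.range Q := by rw [← hQ]; exact ⟨hD, hDV⟩
      obtain ⟨l, rfl⟩ := this
      exact ⟨l, hDe⟩)
  refine ⟨SN (Q '' Set.Iic l), ⟨_, ⟨(Set.finite_Iic l).image _, ?_⟩, rfl⟩, ?_, ?_⟩
  · rintro _ ⟨l', _, rfl⟩
    exact (hQmem l').1
  · intro a ha
    rw [hSN] at ha
    obtain ⟨q, hq, hqs⟩ := ha
    have h1 : ∀ k, q k ∈ V := by
      intro k
      rcases hq k with ⟨D, ⟨l', _, rfl⟩, hD⟩ | h
      · exact (hQmem l').2 hD
      · rw [Set.mem_singleton_iff] at h
        rw [h]; exact h0V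
    have h2 := hVsum q h1
    rw [← hqs] at h2
    simpa using h2
  · filter_upwards [hl, hzero] with j hj hj0
    obtain ⟨π, hπ⟩ := hj
    rw [hSN]
    refine ⟨fun k => i (x j k) - i (y j (π k)), fun k => ?_, ?_⟩
    · left
      obtain ⟨l', hl', hmem⟩ := Set.mem_iUnion₂.1 (hπ k)
      exact ⟨Q l', ⟨l', hl', rfl⟩, hmem⟩
    · rw [← hfs j, hxy j hj0, Finset.sum_sub_distrib, Finset.sum_sub_distrib,
        Equiv.sum_comp π (fun k => i (y j k))]

end Q183.Csf
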