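import Pool.Agent.Q183.Csf.Defs

namespace Q183.Csf

open Filter Topology

universe u

variable {X : Type u} [TopologicalSpace X]

/-! ### Lašnev spaces are normal and sequential -/

theorem IsLasnev.normal (h : IsLasnev X) : NormalSpace X := by
  obtain ⟨_, M, _, p, hp, hc, hs⟩ := h
  refine ⟨fun C D hC hD hCD => ?_⟩
  obtain ⟨U, V, hU, hV, hCU, hDV, hUV⟩ := normal_separation (hC.preimage hp) (hD.preimage hp)
    (hCD.preimage p)
  refine ⟨(p '' Uᶜ)ᶜ, (p '' Vᶜ)ᶜ, (hc _ hU.isClosed_compl).isOpen_compl,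
    (hc _ hV.isClosed_compl).isOpen_compl, ?_, ?_, ?_⟩
  · rintro x hx ⟨m, hm, rfl⟩
    exact hm (hCU hx)
  · rintro x hx ⟨m, hm, rfl⟩
    exact hm (hDV hx)
  · rw [Set.disjoint_left]
    intro x hx hx'
    obtain ⟨m, rfl⟩ := hs x
    have h1 : m ∈ U := by
      by_contra h
      exact hx ⟨m, h, rfl⟩
    have h2 : m ∈ V := by
      by_contra h
      exact hx' ⟨m, h, rfl⟩
    exact Set.disjoint_left.1 hUV h1 h2

theorem IsLasnev.sequential (h : IsLasnev X) : SequentialSpace X := by
  obtain ⟨_, M, _, p, hp, hc, hs⟩ := h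
  exact (hc.isQuotientMap hp hs).sequentialSpace

/-! ### Closed discrete sequences -/

/-- A sequence in a sequential Hausdorff space without convergent subsequence has closed
range, and so has every subset of its range. -/
theorem closed_of_no_subseq [T2Space X] [SequentialSpace X] (s : ℕ → X)
    (hs : ∀ (a : X) (φ : ℕ → ℕ), StrictMono φ → ¬ Tendsto (s ∘ φ) atTop (𝓝 a))
    (T : Set X) (hT : T ⊆ Set.range s) : IsClosed T := by
  apply IsSeqClosed.isClosed
  intro t a ht hta
  by_contra ha
  -- each value of `t` is taken finitely often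
  have hfin : ∀ m : ℕ, ∃ k0, ∀ k ≥ k0, ∀ m' ≤ m, t k ≠ s m' := by
    intro m
    have h1 : ∀ m' : ℕ, ∀ᶠ k in atTop, t k ≠ s m' := by
      intro m'
      by_cases hsa : s m' = a
      · refine Eventually.of_forall fun k hk => ha ?_
        rw [← hsa, ← hk]
        exact ht k
      · exact hta.eventually_ne (Ne.symm hsa)
    have h2 : ∀ᶠ k in atTop, ∀ m' ∈ Set.Iic m, t k ≠ s m' :=
      (Set.finite_Iic m).eventually_all.2 fun m' _ => h1 m'
    obtain ⟨k0, hk0⟩ := eventually_atTop.1 h2
    exact ⟨k0, fun k hk m' hm' => hk0 k hk m' hm'⟩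
  choose m hm using fun k => hT (ht k)
  have hmt : Tendsto m atTop atTop := by
    rw [tendsto_atTop_atTop]
    intro b
    obtain ⟨k0, hk0⟩ := hfin b
    refine ⟨k0, fun k hk => ?_⟩
    by_contra hcon
    exact hk0 k hk (m k) (not_le.1 hcon).le (hm k).symm
  obtain ⟨φ, hφ, hmφ⟩ := strictMono_subseq_of_tendsto_atTop hmt
  apply hs a (m ∘ φ) hmφ
  have h3 : s ∘ (m ∘ φ) = t ∘ φ := by
    funext k
    exact hm (φ k)
  rw [h3]
  exact hta.comp hφ.tendsto_atTop

/-! ### Supports of null sequences -/

/-- The bump functions along a function `g` with values near the integers. -/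
noncomputable def bump (r : ℝ) (l : ℕ) : ℝ := max 0 (1 - 3 * |r - l|)

theorem bump_zero {r : ℝ} {l : ℕ} (h : 1 / 3 ≤ |r - l|) : bump r l = 0 :=
  max_eq_left (by linarith)

theorem bump_self (l : ℕ) : bump l l = 1 := by simp [bump]

theorem bump_mem (r : ℝ) (l : ℕ) : 0 ≤ bump r l ∧ bump r l ≤ 1 :=
  ⟨le_max_left _ _, max_le zero_le_one (by linarith [abs_nonneg (r - l)])⟩

theorem continuous_bump (l : ℕ) : Continuous fun r : ℝ => bump r l := by
  unfold bump
  fun_prop

/-- The map to bounded sequences. -/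
noncomputable def bigMap (g : C(X, ℝ)) (θ : ℕ → C(X, ℝ)) (hθ : ∀ l x, θ l x ∈ Set.Icc (0 : ℝ) 1)
    (x : X) : BoundedContinuousFunction ℕ ℝ :=
  BoundedContinuousFunction.ofNormedAddCommGroupDiscrete
    (fun l => bump (g x) l * θ l x) 1 (fun l => by
      have h1 := bump_mem (g x) l
      have h2 := hθ l x
      rw [Real.norm_eq_abs, abs_of_nonneg (mul_nonneg h1.1 h2.1)]
      exact mul_le_one₀ h1.2 h2.1 h2.2)

theorem bigMap_apply (g : C(X, ℝ)) (θ : ℕ → C(X, ℝ)) (hθ : ∀ l x, θ l x ∈ Set.Icc (0 : ℝ) 1)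
    (x : X) (l : ℕ) : bigMap g θ hθ x l = bump (g x) l * θ l x := rfl

theorem continuous_bigMap (g : C(X, ℝ)) (θ : ℕ → C(X, ℝ))
    (hθ : ∀ l x, θ l x ∈ Set.Icc (0 : ℝ) 1) : Continuous (bigMap g θ hθ) := by
  rw [continuous_iff_continuousAt]
  intro x
  rw [ContinuousAt, Metric.tendsto_nhds]
  intro ε hε
  -- the finitely many active indices
  obtain ⟨L, hL⟩ : ∃ L : Set ℕ, L = {l : ℕ | |g x - l| < 1 / 2} := ⟨_, rfl⟩
  have hLfin : L.Finite := by
    refine (Set.finite_Iic (Nat.ceil (|g x| + 1))).subset fun l hl => ?_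
    rw [hL] at hl
    have h1 : |g x - l| < 1 / 2 := hl
    rw [Set.mem_Iic]
    have h2 := (abs_lt.1 h1).1
    have h3 := le_abs_self (g x)
    have h4 : (l : ℝ) ≤ |g x| + 1 := by linarith
    exact_mod_cast h4.trans (Nat.le_ceil _)
  have h1 : ∀ᶠ y in 𝓝 x, |g y - g x| < 1 / 6 := by
    have := (g.continuous.tendsto x).eventually (Metric.ball_mem_nhds (g x) (ε := 1/6) (by norm_num))
    filter_upwards [this] with y hy
    rwa [Real.dist_eq] at hy
  have h2 : ∀ᶠ y in 𝓝 x, ∀ l ∈ L, |bump (g y) l * θ l y - bump (g x) l * θ l x| < ε / 2 := by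
    rw [hLfin.eventually_all]
    intro l _
    have hc : Continuous fun y => bump (g y) l * θ l y :=
      ((continuous_bump l).comp g.continuous).mul (θ l).continuous
    have := (hc.tendsto x).eventually (Metric.ball_mem_nhds _ (half_pos hε))
    filter_upwards [this] with y hy
    rwa [Real.dist_eq] at hy
  filter_upwards [h1, h2] with y hy1 hy2
  refine lt_of_le_of_lt ?_ (half_lt_self hε)
  rw [BoundedContinuousFunction.dist_le (half_pos hε).le]
  intro l
  rw [bigMap_apply, bigMap_apply, Real.dist_eq]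
  by_cases hl : l ∈ L
  · exact (hy2 l hl).le
  · have h3 : 1 / 2 ≤ |g x - l| := by
      rw [hL] at hl
      exact not_lt.1 hl
    have h4 : 1 / 3 ≤ |g y - l| := by
      have h5 : |g x - l| ≤ |g y - g x| + |g y - l| := by
        have : g x - l = -(g y - g x) + (g y - l) := by ring
        rw [this]
        refine (abs_add_le _ _).trans ?_
        rw [abs_neg]
      linarith
    rw [bump_zero h4, bump_zero (by linarith), zero_mul, zero_mul, sub_zero, abs_zero]
    exact (half_pos hε).le

/-- **Supports.** If the elements with reduced forms `f j` tend to zero then every sequence of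
points in the union of the supports has a convergent subsequence. -/
theorem support_lemma [T2Space X] [NormalSpace X] [SequentialSpace X]
    {A : Type u} [AddCommGroup A] [TopologicalSpace A] {i : X → A} (hA : IsMarkovFree X A i)
    (f : ℕ → X →₀ ℤ)
    (hf : Tendsto (fun j => (f j).sum fun x k => k • i x) atTop (𝓝 0))
    (s : ℕ → X) (hs : ∀ m, ∃ j, s m ∈ (f j).support) :
    ∃ (a : X) (φ : ℕ → ℕ), StrictMono φ ∧ Tendsto (s ∘ φ) atTop (𝓝 a) := by
  by_contra hcon
  push Not at hcon
  have hclosed := closed_of_no_subseq s hcon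
  -- the range is infinite
  have hinf : (Set.range s).Infinite := by
    intro hfin
    obtain ⟨a, ha⟩ : ∃ a, ∃ᶠ m in atTop, s m = a := by
      by_contra h
      push Not at h
      have h1 : ∀ a ∈ Set.range s, ∀ᶠ m in atTop, s m ≠ a := fun a _ => h a
      have h2 := hfin.eventually_all.2 h1
      obtain ⟨m, hm⟩ := h2.exists
      exact hm (s m) ⟨m, rfl⟩ rfl
    obtain ⟨φ, hφ, hφa⟩ := extraction_of_frequently_atTop ha
    refine hcon a φ hφ ?_
    have : s ∘ φ = fun _ => a := funext hφa
    rw [this]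
    exact tendsto_const_nhds
  -- an injective enumeration of part of the range
  obtain ⟨t, ht⟩ : ∃ t : ℕ → X, Function.Injective t ∧ ∀ l, t l ∈ Set.range s := by
    have := hinf.to_subtype
    exact ⟨fun l => (Infinite.natEmbedding (Set.range s) l : X),
      fun a b hab => (Infinite.natEmbedding (Set.range s)).injective (Subtype.ext hab),
      fun l => (Infinite.natEmbedding (Set.range s) l).2⟩
  obtain ⟨htinj, htr⟩ := ht
  have hj : ∀ l, ∃ j, t l ∈ (f j).support := by
    intro l
    obtain ⟨m, hm⟩ := htr l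
    rw [← hm]
    exact hs m
  choose j hj using hj
  -- the indices tend to infinity
  have hjt : Tendsto j atTop atTop := by
    rw [tendsto_atTop]
    intro b
    have h1 : {l | j l < b}.Finite := by
      have h2 : (⋃ k ∈ Set.Iio b, ((f k).support : Set X)).Finite :=
        (Set.finite_Iio b).biUnion fun k _ => (f k).support.finite_toSet
      refine Set.Finite.of_finite_image (h2.subset ?_) (htinj.injOn (s := {l | j l < b}))
      rintro _ ⟨l, hl, rfl⟩
      exact Set.mem_biUnion hl (hj l)
    rw [← Nat.cofinite_eq_atTop]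
    refine h1.subset fun l hl => ?_
    simpa using hl
  have hcl : ∀ T : Set X, T ⊆ Set.range t → IsClosed T := by
    intro T hT
    apply hclosed
    intro x hx
    obtain ⟨l, rfl⟩ := hT hx
    exact htr l
  -- the separating function
  obtain ⟨g, hg⟩ : ∃ g : C(X, ℝ), ∀ l : ℕ, g (t l) = l := by
    have hdisc : DiscreteTopology (Set.range t) := by
      rw [discreteTopology_iff_forall_isClosed]
      intro T
      have h1 : IsClosed (Subtype.val '' T : Set X) := by
        apply hcl
        rintro _ ⟨y, _, rfl⟩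
        exact y.2
      have h2 := h1.preimage (continuous_subtype_val (p := fun x => x ∈ Set.range t))
      rwa [Set.preimage_image_eq _ Subtype.val_injective] at h2
    obtain ⟨g, hg⟩ := ContinuousMap.exists_restrict_eq (hcl _ subset_rfl)
      (⟨fun y : Set.range t => ((Classical.choose y.2 : ℕ) : ℝ), continuous_of_discreteTopology⟩ :
        C(Set.range t, ℝ))
    refine ⟨g, fun l => ?_⟩
    have h3 := DFunLike.congr_fun hg ⟨t l, l, rfl⟩
    have h4 : Classical.choose (⟨l, rfl⟩ : ∃ y, t y = t l) = l :=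
      htinj (Classical.choose_spec (⟨l, rfl⟩ : ∃ y, t y = t l))
    have h5 : g (t l) = ((Classical.choose (⟨l, rfl⟩ : ∃ y, t y = t l) : ℕ) : ℝ) := h3
    rw [h5, h4]
  have hθ : ∀ l : ℕ, ∃ θ : C(X, ℝ), (∀ x ∈ (f (j l)).support, x ≠ t l → θ x = 0) ∧
      θ (t l) = 1 ∧ ∀ x, θ x ∈ Set.Icc (0 : ℝ) 1 := by
    intro l
    obtain ⟨θ, h1, h2, h3⟩ := exists_continuous_zero_one_of_isClosed
      (s := (((f (j l)).support : Set X) \ {t l})) (t := {t l})
      (((f (j l)).support.finite_toSet.subset Set.sdiff_subset).isClosed) isClosed_singleton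
      Set.disjoint_sdiff_left
    exact ⟨θ, fun x hx hxt => h1 ⟨hx, hxt⟩, h2 rfl, h3⟩
  choose θ hθ0 hθ1 hθI using hθ
  obtain ⟨ψ, hψ, hψi⟩ := hA.extend (ULift.{u} (BoundedContinuousFunction ℕ ℝ))
    (fun x => ULift.up (bigMap g θ hθI x)) (continuous_uliftUp.comp (continuous_bigMap g θ hθI))
  have hlim : Tendsto (fun l => ‖(ψ ((f (j l)).sum fun x k => k • i x)).down‖) atTop (𝓝 0) := by
    have h1 := (hψ.tendsto 0).comp (hf.comp hjt)
    rw [map_zero] at h1
    have h2 := (continuous_uliftDown.tendsto _).comp h1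
    have h3 := h2.norm
    simpa using h3
  have hge : ∀ l, 1 ≤ ‖(ψ ((f (j l)).sum fun x k => k • i x)).down‖ := by
    intro l
    have h1 : ψ ((f (j l)).sum fun x k => k • i x)
        = (f (j l)).sum fun x k => k • ULift.up.{u} (bigMap g θ hθI x) := by
      rw [map_finsuppSum]
      refine Finsupp.sum_congr fun x _ => ?_
      rw [map_zsmul, hψi]
    have h2 : (ψ ((f (j l)).sum fun x k => k • i x)).down
        = (f (j l)).sum fun x k => k • bigMap g θ hθI x := by
      rw [h1]
      have := map_finsuppSum (AddEquiv.ulift (α := BoundedContinuousFunction ℕ ℝ)) (f (j l))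
        (fun x k => k • ULift.up.{u} (bigMap g θ hθI x))
      exact this
    rw [h2]
    have h3 : ((f (j l)).sum fun x k => k • bigMap g θ hθI x) l = (f (j l) (t l) : ℝ) := by
      rw [Finsupp.sum, BoundedContinuousFunction.coe_sum, Finset.sum_apply,
        Finset.sum_eq_single (t l)]
      · rw [BoundedContinuousFunction.coe_zsmul, Pi.smul_apply, bigMap_apply, hg, bump_self, hθ1]
        simp
      · intro x hx hxt
        rw [BoundedContinuousFunction.coe_zsmul, Pi.smul_apply, bigMap_apply, hθ0 l x hx hxt]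
        simp
      · intro h
        exact (h (hj l)).elim
    refine le_trans ?_ (BoundedContinuousFunction.norm_coe_le_norm _ l)
    rw [h3, Real.norm_eq_abs, ← Int.cast_abs]
    have h4 : f (j l) (t l) ≠ 0 := Finsupp.mem_support_iff.1 (hj l)
    exact_mod_cast Int.one_le_abs h4
  have := ge_of_tendsto' hlim hge
  norm_num at this

end Q183.Csf
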